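import Pool.Agent.L5helper90.DN.Main

/-!
# Decomposable circuits for short halting need size `n ^ Ω(k)`

MP_7836d5_lc. The nondeterministic one-tape Turing machines with `n` states and `n` symbols are given
by tables of bits, one bit for each possible transition. Decomposable circuits (DNNF; they contain
the nondeterministic read-once branching programs) are the circuits in negation normal form such that
the two inputs of a conjunction have no variable in common. For the `k`-step halting problem they
need `n ^ Ω(k)` gates, so in this model exhaustive search is optimal up to the constant in the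
exponent. The machines used reuse their transitions along a pattern with expansion.
-/

set_option autoImplicit false

open Filter

namespace Pool.Agent.Results.MP_7836d5_lc.DecomposableCircuits

open Pool.Agent.L5helper58.KS Pool.Agent.L5helper90.DN

open Classical in
/-- There are families of machines that halt within `k` steps of which a decomposable circuit that
accepts no machine running for ever accepts at most the fraction `size * n ^ (-θ)`, for all
`θ < ⌊(k - 2) / 480⌋`. Hence decomposable circuits separating the machines that halt within `k` steps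
from those that never halt have at least `n ^ θ` gates, and no `f k * n ^ c` bounds the size of
decomposable circuits for the `k`-step halting problem. -/
theorem result :
    (∀ k : ℕ, 482 ≤ k → ∀ θ : ℝ, θ < ((k - 2) / 480 : ℕ) →
      ∀ᶠ n : ℕ in atTop,
        (∃ (Λ : Type) (_ : Fintype Λ) (_ : Nonempty Λ) (x : Λ → Tab n → Bool),
          (∀ l, Halts (machineOf (x l)) k) ∧
          ∀ C : Circ (Tab n), C.Decomposable →
            (∀ y, C.Val y C.out → ∃ m, Halts (machineOf y) m) →
            ((Finset.univ.filter (fun l => C.Val (x l) C.out)).card : ℝ) ≤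
              C.size * (n : ℝ) ^ (-θ) * Fintype.card Λ) ∧
        ∀ C : Circ (Tab n), C.Decomposable →
          (∀ y, Halts (machineOf y) k → C.Val y C.out) →
          (∀ y, C.Val y C.out → ∃ m, Halts (machineOf y) m) → (n : ℝ) ^ θ ≤ C.size) ∧
    ∀ (f : ℕ → ℕ) (c : ℕ), ∀ᶠ k : ℕ in atTop, ∀ᶠ n : ℕ in atTop,
      ∀ C : Circ (Tab n), C.Decomposable →
        (∀ y, C.Val y C.out ↔ Halts (machineOf y) k) → f k * n ^ c < C.size := by
  refine ⟨fun k hk θ hθ => (family k hk θ hθ).and (lower k hk θ hθ), fun f c => ?_⟩
  filter_upwards [eventually_ge_atTop (480 * (c + 2) + 2)] with k hk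
  have hc : c + 2 ≤ (k - 2) / 480 := by omega
  have hθ : (c : ℝ) + 1 < ((k - 2) / 480 : ℕ) := by
    have : ((c + 2 : ℕ) : ℝ) ≤ ((k - 2) / 480 : ℕ) := by exact_mod_cast hc
    push_cast at this ⊢
    linarith
  filter_upwards [lower k (by omega) _ hθ, eventually_gt_atTop (f k)] with n h1 h2 C hC hdec
  have h3 := h1 C hC (fun y hy => (hdec y).2 hy) (fun y hy => ⟨k, (hdec y).1 hy⟩)
  have hn0 : (0 : ℝ) < n := by
    have : 0 < n := by omega
    exact_mod_cast this
  have h4 : ((f k * n ^ c : ℕ) : ℝ) < C.size := by
    calc ((f k * n ^ c : ℕ) : ℝ) = (f k : ℝ) * (n : ℝ) ^ c := by push_cast; rfl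
      _ < (n : ℝ) * (n : ℝ) ^ c := by
          have : (f k : ℝ) < n := by exact_mod_cast h2
          exact mul_lt_mul_of_pos_right this (pow_pos hn0 _)
      _ = (n : ℝ) ^ ((c : ℝ) + 1) := by
          rw [Real.rpow_add hn0, Real.rpow_one, Real.rpow_natCast]
          ring
      _ ≤ C.size := h3
  exact_mod_cast h4

end Pool.Agent.Results.MP_7836d5_lc.DecomposableCircuits
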