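import Pool.Agent.L5helper87.SF.Sound

/-!
# MP_576eff_lc: symmetric Frege proofs

For every first-order theory with a model of at least `n` elements (for example with an infinite
model) we prove an exponential lower bound for the Frege refutations, and even for the extended
Frege refutations, of its propositional translation over an `n`-element universe `A`, provided that
the refutation is invariant under the renamings of a set `D` of elements of `A`.
-/

set_option autoImplicit false

open Equiv Finset FirstOrder

namespace Pool.Agent.Results.MP_576eff_lc.SymmetricFrege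

open Pool.Agent.L5helper42.Sym Pool.Agent.L5helper87.SF

/-- `l` is a refutation of the propositional translation of the theory `T` over `A`. -/
def Refutes {L : Language} [L.IsRelational] {A N : Type} [DecidableEq N] (C : Dag (Atom L A) N)
    (T : L.Theory) (l : List (Finset N)) : Prop :=
  Derivation C (fun i => ∃ φ ∈ T, Represents C φ Fin.elim0 i) l ∧ ∅ ∈ l

theorem bound {L : Language} [L.IsRelational] (T : L.Theory) (q : ℕ)
    (hq : ∀ φ ∈ T, width φ ≤ q)
    {M : Type} [L.Structure M] (hM : M ⊨ T)
    {A : Type} [Fintype A] [DecidableEq A] (hA : Nonempty (A ↪ M))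
    {N : Type} [Fintype N] [DecidableEq N] (C : Dag (Atom L A) N) (l : List (Finset N))
    (hl0 : Refutes C T l)
    (D : Finset A) (hD : Inv D C {Γ | Γ ∈ l}) :
    2 ^ D.card ≤ 2 ^ (q + 3) * (Fintype.card N + l.length) ^ 36 := by
  classical
  obtain ⟨hl, h0⟩ := hl0
  set s := Fintype.card N + l.length with hs
  set S : Set (Finset N) := {Γ | Γ ∈ l} with hSd
  set k := 3 * Nat.log 2 (s ^ 2) with hk
  have hs0 : s ≠ 0 := by
    have : 0 < l.length := List.length_pos_of_mem h0
    omega
  have hsmall : Small D C S k := by
    set T' : Finset (Finset N) := (univ : Finset N).map ⟨fun i => ({i} : Finset N),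
      Finset.singleton_injective⟩ ∪ l.toFinset with hT'
    have hT'c : T'.card ≤ s := by
      refine (card_union_le _ _).trans ?_
      rw [card_map, card_univ]
      have := List.toFinset_card_le l
      omega
    have hclosed : ∀ Γ ∈ T', ∀ (π : Perm D) (σ : Perm N), IsAut C S (emb D π) σ →
        Γ.map σ.toEmbedding ∈ T' := by
      intro Γ hΓ π σ hσ
      rcases mem_union.1 hΓ with h | h
      · rw [Finset.mem_map] at h
        obtain ⟨i, -, rfl⟩ := h
        refine mem_union_left _ ?_
        rw [Finset.mem_map]
        exact ⟨σ i, mem_univ _, by simp⟩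
      · refine mem_union_right _ ?_
        rw [List.mem_toFinset] at h ⊢
        exact (hσ.lines Γ).2 h
    have hle : ∀ Γ ∈ T', (sp D C S Γ).card ≤ k := by
      intro Γ hΓ
      refine (supp_card_le _).trans ?_
      have h1 := index_le D hD T' hclosed hΓ
      have h2 : (P D C S Γ).index ^ 2 ≤ s ^ 2 := Nat.pow_le_pow_left (h1.trans hT'c) 2
      have h3 := Nat.log_mono_right (b := 2) h2
      omega
    refine ⟨hD, fun i => hle _ (mem_union_left _ ?_), fun Γ hΓ => hle _ (mem_union_right _ ?_)⟩
    · rw [Finset.mem_map]
      exact ⟨i, mem_univ _, rfl⟩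
    · exact List.mem_toFinset.2 hΓ
  have hmain : D.card ≤ 6 * k + q + 2 := by
    by_contra hcon
    push Not at hcon
    have htrue : ∀ i, (∃ φ ∈ T, Represents C φ Fin.elim0 i) → ∀ h : A ↪ M, val D C S i h := by
      rintro i ⟨φ, hφ, hr⟩ h
      rw [represents hsmall (q := q) (by omega) (default : Empty → M) φ (hq φ hφ) _ i hr h]
      have h1 : M ⊨ φ := hM.realize_of_mem φ hφ
      have h2 : (fun s => h ((Fin.elim0 : Fin 0 → A) s)) = (default : Fin 0 → M) := by
        funext s
        exact s.elim0
      rw [h2]
      exact h1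
    have hall : ∀ l' : List (Finset N), Derivation C (fun i => ∃ φ ∈ T, Represents C φ Fin.elim0 i) l' →
        (∀ Γ ∈ l', Γ ∈ S) → ∀ Γ ∈ l', TrueLine M D C S Γ := by
      intro l' hl'
      induction hl' with
      | nil => intro _ Γ hΓ; exact absurd hΓ List.not_mem_nil
      | @cons Γ l'' hd hst ih =>
        intro hsub Γ' hΓ'
        have ih' := ih fun Γ h => hsub Γ (List.mem_cons_of_mem _ h)
        rcases List.mem_cons.1 hΓ' with rfl | h1
        · exact step_sound hsmall (by omega) htrue
            (fun Δ hΔ => ⟨hsub Δ (List.mem_cons_of_mem _ hΔ), ih' Δ hΔ⟩)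
            (hsub _ List.mem_cons_self) hst
        · exact ih' Γ' h1
    obtain ⟨h⟩ := hA
    obtain ⟨i, hi, -⟩ := hall l hl (fun _ h => h) ∅ h0 h
    exact absurd hi (notMem_empty i)
  calc 2 ^ D.card ≤ 2 ^ (6 * k + q + 2) := Nat.pow_le_pow_right (by norm_num) hmain
    _ = 2 ^ (q + 2) * (2 ^ Nat.log 2 (s ^ 2)) ^ 18 := by
        rw [← pow_mul, ← pow_add, hk]
        congr 1
        ring
    _ ≤ 2 ^ (q + 3) * (s ^ 2) ^ 18 := by
        refine Nat.mul_le_mul (Nat.pow_le_pow_right (by norm_num) (by omega)) ?_
        exact Nat.pow_le_pow_left (Nat.pow_log_le_self 2 (by positivity)) 18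
    _ = 2 ^ (q + 3) * s ^ 36 := by rw [← pow_mul]

open FirstOrder.Language in
/-- The pigeonhole principle: `R` is the graph of a function from the universe to itself which is
injective and not surjective. -/
def php : Language.graph.Theory :=
  {∀' ∃' (Language.adj.boundedFormula₂ (&0) (&1)),
   ∀' ∀' ∀' (Language.adj.boundedFormula₂ (&0) (&1) ⟹
      (Language.adj.boundedFormula₂ (&0) (&2) ⟹ (Term.bdEqual (&1) (&2)))),
   ∀' ∀' ∀' (Language.adj.boundedFormula₂ (&0) (&2) ⟹
      (Language.adj.boundedFormula₂ (&1) (&2) ⟹ (Term.bdEqual (&0) (&1)))),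
   ∃' ∀' (∼(Language.adj.boundedFormula₂ (&1) (&0)))}

lemma php_width : ∀ φ ∈ php, width φ ≤ 3 := by
  intro φ hφ
  simp only [php, Set.mem_insert_iff, Set.mem_singleton_iff] at hφ
  rcases hφ with rfl | rfl | rfl | rfl <;> decide

/-- The successor function on the natural numbers. -/
@[instance_reducible]
def succStr : Language.graph.Structure ℕ where
  RelMap | .adj => fun v => v 1 = v 0 + 1

set_option linter.unusedSimpArgs false in
lemma php_model : @FirstOrder.Language.Theory.Model Language.graph ℕ succStr php := by
  let _ := succStr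
  have hadj : ∀ x y : ℕ, Language.Structure.RelMap (L := Language.graph) (M := ℕ)
      Language.adj ![x, y] ↔ y = x + 1 := fun x y => Iff.rfl
  constructor
  intro φ hφ
  simp only [php, Set.mem_insert_iff, Set.mem_singleton_iff] at hφ
  rcases hφ with rfl | rfl | rfl | rfl <;>
  simp only [Language.Sentence.Realize, Language.Formula.Realize,
      Language.BoundedFormula.realize_all, Language.BoundedFormula.realize_ex,
      Language.BoundedFormula.realize_rel₂, hadj, Language.BoundedFormula.realize_imp,
      Language.BoundedFormula.realize_bdEqual, Language.BoundedFormula.realize_not]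
  · intro a
    exact ⟨a + 1, rfl⟩
  · intro a b c h1 h2
    exact h1.trans h2.symm
  · intro a b c h1 h2
    have := h1.symm.trans h2
    exact Nat.succ_injective this
  · exact ⟨0, fun b h => absurd h (Nat.succ_ne_zero b).symm⟩

/-- **Symmetric Frege refutations are exponentially long.** -/
theorem result :
    -- every theory in a relational language which has a model with at least `|A|` elements
    (∀ (L : Language) [L.IsRelational] (T : L.Theory) (q : ℕ), (∀ φ ∈ T, width φ ≤ q) →
      ∀ (M : Type) [L.Structure M], M ⊨ T →
      ∀ (A : Type) [Fintype A] [DecidableEq A], Nonempty (A ↪ M) →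
      ∀ (N : Type) [Fintype N] [DecidableEq N] (C : Dag (Atom L A) N) (l : List (Finset N)),
        Refutes C T l → ∀ D : Finset A, Inv D C {Γ | Γ ∈ l} →
          2 ^ D.card ≤ 2 ^ (q + 3) * (Fintype.card N + l.length) ^ 36) ∧
    -- the pigeonhole principle
    (∀ (A : Type) [Fintype A] [DecidableEq A] (N : Type) [Fintype N] [DecidableEq N]
      (C : Dag (Atom Language.graph A) N) (l : List (Finset N)),
        Refutes C php l → ∀ D : Finset A, Inv D C {Γ | Γ ∈ l} →
          2 ^ D.card ≤ 64 * (Fintype.card N + l.length) ^ 36) := by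
  refine ⟨fun L _ T q hq M _ hM A _ _ hA N _ _ C l hl D hD => bound T q hq hM hA C l hl D hD,
    fun A _ _ N _ _ C l hl D hD => ?_⟩
  let _ := succStr
  exact bound php 3 php_width php_model
    ⟨(Fintype.equivFin A).toEmbedding.trans Fin.valEmbedding⟩ C l hl D hD

end Pool.Agent.Results.MP_576eff_lc.SymmetricFrege
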